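import Pool.Agent.Helper73.Dil.Surf

open Topology Set Filter MeasureTheory Metric

namespace Pool.Agent.Helper91.Dil

open Pool.Agent.Helper73.Dil
open Pool.Agent.Helper73.Dil.DilationSurface

universe u

variable {X : Type u} [TopologicalSpace X] {D : DilationSurface X}

theorem u_continuousAt (S : D.Scale) (e : OpenPartialHomeomorph X ℂ) (he : D.IsChart e) (x : X)
    (hx : x ∈ e.source) : ContinuousAt (S.u e) x := by
  have h1 := (S.smooth e he x hx).continuousAt
  have h2 : ContinuousAt (fun y => (((fun y => (S.u e y : ℂ)) ∘ e.symm) (e y)).re) x :=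
    Complex.continuous_re.continuousAt.comp (h1.comp (e.continuousAt hx))
  apply h2.congr
  filter_upwards [e.open_source.mem_nhds hx] with y hy
  simp [e.left_inv hy]

theorem u_continuousOn (S : D.Scale) (e : OpenPartialHomeomorph X ℂ) (he : D.IsChart e) :
    ContinuousOn (S.u e) e.source := fun x hx => (u_continuousAt S e he x hx).continuousWithinAt

theorem idx_mem (R : D.Ref) (x : X) (hx : x ∉ D.cone) : x ∈ (R.ch x).source := by
  obtain ⟨n, hn⟩ := R.cov x hx
  exact Nat.sInf_mem (s := {n | x ∈ (R.B n).source}) ⟨n, hn⟩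

/-- the density -/
noncomputable def rho (S : D.Scale) (R : D.Ref) (x : X) : ENNReal :=
  ENNReal.ofReal (Real.exp (-2 * S.u (R.ch x) x))

theorem rho_meas [MeasurableSpace X] [BorelSpace X] (S : D.Scale) (R : D.Ref)
    (hidx : Measurable R.idx) :
    ∃ ρ' : X → ENNReal, Measurable ρ' ∧ ∀ x, x ∉ D.cone → ρ' x = rho S R x := by
  classical
  let N : ℕ → Set X := fun n => {x | x ∈ (R.B n).source ∧ R.idx x = n}
  have hN : ∀ n, MeasurableSet (N n) := fun n =>
    (R.B n).open_source.measurableSet.inter (hidx (measurableSet_singleton n))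
  let F : ℕ → X → ENNReal := fun n x => ENNReal.ofReal (Real.exp (-2 * S.u (R.B n) x))
  have hF : ∀ n, ContinuousOn (F n) (R.B n).source := fun n => by
    have h1 := u_continuousOn S (R.B n) (R.ball n).1
    apply ENNReal.continuous_ofReal.comp_continuousOn
    apply Real.continuous_exp.comp_continuousOn
    exact continuousOn_const.mul h1
  refine ⟨fun x => ∑' n, (N n).piecewise (F n) (fun _ => 0) x, ?_, ?_⟩
  · apply Measurable.tsum
    intro n
    apply ContinuousOn.measurable_piecewise _ continuousOn_const (hN n)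
    exact (hF n).mono fun x hx => hx.1
  · intro x hx
    have h1 := idx_mem R x hx
    show (∑' n, (N n).piecewise (F n) (fun _ => 0) x) = rho S R x
    rw [tsum_eq_single (R.idx x)]
    · rw [Set.piecewise_eq_of_mem _ _ _ (show x ∈ N (R.idx x) from ⟨h1, rfl⟩)]
      rfl
    · intro n hn
      rw [Set.piecewise_eq_of_notMem]
      intro h2
      exact hn h2.2.symm

section

variable [CompactSpace X] [T2Space X] [MeasurableSpace X] [BorelSpace X]

theorem area_apply (hM : SB_MEAS.{u}) (S : D.Scale) (R : D.Ref) (ρ' : X → ENNReal)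
    (hρ : ∀ x, x ∉ D.cone → ρ' x = rho S R x) (A : Set X) (hA : MeasurableSet A) :
    S.area R A = ∫⁻ x in A, ρ' x ∂(R.mu) := by
  unfold Scale.area
  rw [withDensity_apply _ hA]
  have h0 := (hM X D R).1
  apply lintegral_congr_ae
  apply ae_restrict_of_ae
  show ∀ᵐ x ∂(R.mu), rho S R x = ρ' x
  rw [ae_iff]
  apply measure_mono_null _ h0
  intro x hx
  by_contra hc
  exact hx (hρ x hc).symm

theorem area_le (hM : SB_MEAS.{u}) (hR : SB_RAT.{u}) (S : D.Scale) (R : D.Ref)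
    (b : OpenPartialHomeomorph X ℂ) (hb : D.IsBall b) (A : Set X) (hA : MeasurableSet A)
    (hAb : A ⊆ b.source) (M : ℝ)
    (hMb : ∀ z ∈ B1, b.symm z ∈ A → Real.exp (-2 * S.u b (b.symm z)) ≤ M) :
    S.area R A ≤ ENNReal.ofReal M * volume B1 := by
  obtain ⟨h0, -, -, -, hidx, hcv⟩ := hM X D R
  obtain ⟨ρ', hρm, hρ⟩ := rho_meas S R hidx
  rw [area_apply hM S R ρ' hρ A hA]
  have h1 : ∫⁻ x in A, ρ' x ∂(R.mu) = ∫⁻ x in b.source, A.indicator ρ' x ∂(R.mu) := by
    rw [lintegral_indicator hA, Measure.restrict_restrict hA, inter_eq_left.2 hAb]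
  rw [h1, (hcv b hb).2 _ (hρm.indicator hA)]
  have h2 : ∀ z ∈ B1, A.indicator ρ' (b.symm z) *
      ENNReal.ofReal ((rat b (R.ch (b.symm z)) (b.symm z)) ^ 2) ≤ ENNReal.ofReal M := by
    intro z hz
    by_cases hzA : b.symm z ∈ A
    · rw [Set.indicator_of_mem hzA]
      have hbs := hAb hzA
      have hcone : b.symm z ∉ D.cone := hb.1.1 _ hbs
      rw [hρ _ hcone]
      have hch := idx_mem R _ hcone
      have hchart : D.IsChart (R.ch (b.symm z)) := (R.ball _).1
      obtain ⟨r0, -, -, -, hdil⟩ := hR X D b (R.ch (b.symm z)) (b.symm z) hb.1 hchart hbs hch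
      have ht := S.trans b _ hb.1 hchart _ hbs hch _ hdil
      have h3 : rho S R (b.symm z) * ENNReal.ofReal ((rat b (R.ch (b.symm z)) (b.symm z)) ^ 2)
          = ENNReal.ofReal (Real.exp (-2 * S.u b (b.symm z))) := by
        unfold rho
        rw [← ENNReal.ofReal_mul (Real.exp_pos _).le, ht]
        congr 1
        have h4 : Real.exp (-2 * (S.u b (b.symm z) + Real.log |rat b (R.ch (b.symm z)) (b.symm z)|))
            = Real.exp (-2 * S.u b (b.symm z)) *
              (Real.exp (Real.log |rat b (R.ch (b.symm z)) (b.symm z)|) ^ 2)⁻¹ := by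
          rw [mul_add, Real.exp_add, ← Real.exp_nat_mul, ← Real.exp_neg]
          congr 2
          push_cast
          ring
        rw [h4, Real.exp_log (abs_pos.2 r0), sq_abs, mul_assoc, inv_mul_cancel₀, mul_one]
        exact pow_ne_zero 2 r0
      rw [h3]
      exact ENNReal.ofReal_le_ofReal (hMb z hz hzA)
    · rw [Set.indicator_of_notMem hzA, zero_mul]
      exact bot_le
  calc _ ≤ ∫⁻ z in B1, ENNReal.ofReal M := setLIntegral_mono' measurableSet_ball h2
    _ = _ := by rw [setLIntegral_const]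

theorem volB1 : volume B1 < ⊤ := measure_ball_lt_top

/-- regular points have neighbourhoods of finite area -/
theorem finite_regular (hM : SB_MEAS.{u}) (hR : SB_RAT.{u}) (hB : SB_BALL.{u}) (S : D.Scale)
    (R : D.Ref) (x : X) (hx : x ∉ D.cone) : ∃ A ∈ 𝓝 x, S.area R A < ⊤ := by
  obtain ⟨b, hb, hxb, hb0, -⟩ := hB X D x hx univ univ_mem
  have hsub : closedBall (0 : ℂ) (1 / 2) ⊆ b.target := by
    rw [hb.2]
    exact closedBall_subset_ball (by norm_num)
  have hc : ContinuousOn (fun z => Real.exp (-2 * S.u b (b.symm z))) (closedBall (0 : ℂ) (1 / 2)) := by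
    apply Real.continuous_exp.comp_continuousOn
    apply continuousOn_const.mul
    apply (u_continuousOn S b hb.1).comp (b.continuousOn_symm.mono hsub)
    intro z hz
    exact b.map_target (hsub hz)
  obtain ⟨M, hMM⟩ := (isCompact_closedBall (0 : ℂ) (1 / 2)).bddAbove_image hc
  refine ⟨b.source ∩ b ⁻¹' (ball 0 (1 / 2)), ?_, ?_⟩
  · apply (b.isOpen_inter_preimage isOpen_ball).mem_nhds
    refine ⟨hxb, ?_⟩
    show b x ∈ ball (0 : ℂ) (1 / 2)
    rw [hb0]
    exact mem_ball_self (by norm_num)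
  · apply (area_le hM hR S R b hb _ (b.isOpen_inter_preimage isOpen_ball).measurableSet
      inter_subset_left M _).trans_lt
    · exact ENNReal.mul_lt_top ENNReal.ofReal_lt_top volB1
    · intro z hz hz2
      apply hMM
      refine ⟨z, ?_, rfl⟩
      have h3 : b (b.symm z) ∈ ball (0 : ℂ) (1 / 2) := hz2.2
      rw [b.right_inv (by rw [hb.2]; exact hz)] at h3
      exact ball_subset_closedBall h3

/-- small discs in the cone coordinate are contained in flat balls -/
theorem disc_subset (p x : X) (k : ℕ) (ψ b : OpenPartialHomeomorph X ℂ)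
    (hψ : D.IsConeBall p k ψ) (hx : x ∈ ψ.source) (hx4 : ‖ψ x‖ < 1 / 4) (hxp : ψ x ≠ 0)
    (hb : D.IsBall b) (hxb : x ∈ b.source) (z0 : ℂ) (hz0 : z0 ^ 2 = ψ x ^ k)
    (hby : ∀ y ∈ b.source, ((‖z0‖ / 2 : ℝ) * b y + z0) ^ 2 = ψ y ^ k) (c : ℝ) (c0 : 0 < c)
    (c1 : c ≤ 1)
    (hc : ∀ δ : ℂ, ‖δ‖ < c → ‖(1 + δ) ^ k - 1‖ < 3 / 4) (y : X) (hy : y ∈ ψ.source)
    (hyx : ‖ψ y - ψ x‖ < c * ‖ψ x‖) : y ∈ b.source := by
  have hz0n : z0 ≠ 0 := by
    intro h
    rw [h] at hz0
    have : ψ x ^ k = 0 := by rw [← hz0]; simp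
    exact hxp ((pow_eq_zero_iff (by have := hψ.one_le; omega)).1 this)
  have hxpos : 0 < ‖ψ x‖ := norm_pos_iff.2 hxp
  have hbt : ball (ψ x) (c * ‖ψ x‖) ⊆ ψ.target := by
    rw [hψ.tgt]
    intro w hw
    rw [mem_ball, dist_eq_norm] at hw
    show w ∈ ball (0 : ℂ) 1
    rw [mem_ball, dist_zero_right]
    have h1 : ‖w‖ ≤ ‖w - ψ x‖ + ‖ψ x‖ := by
      have := norm_add_le (w - ψ x) (ψ x)
      simpa using this
    nlinarith
  set Sx : Set X := ψ.symm '' ball (ψ x) (c * ‖ψ x‖) with hSx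
  have hpre : IsPreconnected Sx :=
    (convex_ball _ _).isPreconnected.image _ (ψ.continuousOn_symm.mono hbt)
  have hxS : x ∈ Sx := ⟨ψ x, mem_ball_self (by positivity), ψ.left_inv hx⟩
  have hyS : y ∈ Sx := ⟨ψ y, by rwa [mem_ball, dist_eq_norm], ψ.left_inv hy⟩
  apply hpre.subset_of_closure_inter_subset b.open_source ⟨x, hxS, hxb⟩ _ hyS
  rintro y' ⟨hy'c, hy'S⟩
  -- a point of the closure
  have hy'ψ : y' ∈ ψ.source ∧ ‖ψ y' - ψ x‖ < c * ‖ψ x‖ := by
    obtain ⟨w, hw, rfl⟩ := hy'S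
    refine ⟨ψ.map_target (hbt hw), ?_⟩
    rw [ψ.right_inv (hbt hw)]
    rwa [mem_ball, dist_eq_norm] at hw
  have hne : (𝓝[b.source] y').NeBot := mem_closure_iff_nhdsWithin_neBot.1 hy'c
  obtain ⟨U, hU⟩ := Ultrafilter.exists_le (𝓝[b.source] y')
  have hUn : (U : Filter X) ≤ 𝓝 y' := hU.trans nhdsWithin_le_nhds
  have hUb : b.source ∈ U := hU self_mem_nhdsWithin
  have hcl : closedBall (0 : ℂ) 1 ∈ U.map b := by
    show b ⁻¹' closedBall (0 : ℂ) 1 ∈ U
    filter_upwards [hUb] with v hv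
    have : b v ∈ b.target := b.map_source hv
    rw [hb.2] at this
    exact ball_subset_closedBall this
  obtain ⟨β, hβ, hUβ⟩ := (isCompact_closedBall (0 : ℂ) 1).ultrafilter_le_nhds (U.map b)
    (by rwa [Filter.le_principal_iff])
  have hbβ : Tendsto b U (𝓝 β) := hUβ
  -- the limit identity
  have hlim : ((‖z0‖ / 2 : ℝ) * β + z0) ^ 2 = ψ y' ^ k := by
    have t1 : Tendsto (fun v => ((‖z0‖ / 2 : ℝ) * b v + z0) ^ 2) U
        (𝓝 (((‖z0‖ / 2 : ℝ) * β + z0) ^ 2)) :=
      ((hbβ.const_mul _).add_const _).pow 2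
    have t2 : Tendsto (fun v => ψ v ^ k) U (𝓝 (ψ y' ^ k)) :=
      (((ψ.continuousAt hy'ψ.1).tendsto).mono_left hUn).pow k
    have t3 : Tendsto (fun v => ψ v ^ k) U (𝓝 (((‖z0‖ / 2 : ℝ) * β + z0) ^ 2)) := by
      apply t1.congr'
      filter_upwards [hUb] with v hv
      exact hby v hv
    exact tendsto_nhds_unique t3 t2
  have hβ1 : ‖β‖ < 1 := by
    have hβle : ‖β‖ ≤ 1 := by simpa using hβ
    set δ : ℂ := ψ y' / ψ x - 1 with hδ
    have hδn : ‖δ‖ < c := by
      have h1 : δ = (ψ y' - ψ x) / ψ x := by rw [hδ]; field_simp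
      rw [h1, norm_div, div_lt_iff₀ hxpos]
      exact hy'ψ.2
    have hη := hc δ hδn
    set t : ℂ := (‖z0‖ / 2 : ℝ) * β / z0 with ht
    have htn : ‖t‖ = ‖β‖ / 2 := by
      rw [ht, norm_div, norm_mul, Complex.norm_real, Real.norm_eq_abs,
        abs_of_nonneg (by positivity)]
      have : ‖z0‖ ≠ 0 := norm_ne_zero_iff.2 hz0n
      field_simp
    have h2 : t * (2 + t) = (1 + δ) ^ k - 1 := by
      have h3 : (1 + δ) ^ k = (1 + t) ^ 2 := by
        have h4 : 1 + δ = ψ y' / ψ x := by rw [hδ]; ring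
        rw [h4, div_pow, ← hlim, ← hz0, ht]
        field_simp
        ring
      rw [h3]; ring
    have h5 : ‖t‖ * ‖2 + t‖ < 3 / 4 := by
      rw [← norm_mul, h2]; exact hη
    have h6 : 3 / 2 ≤ ‖2 + t‖ := by
      have h7 : ‖(2 : ℂ)‖ ≤ ‖2 + t‖ + ‖t‖ := by
        have := norm_sub_le (2 + t) t
        simpa using this
      have h8 : ‖(2 : ℂ)‖ = 2 := by simp
      rw [h8] at h7
      linarith
    have h9 : ‖t‖ * (3 / 2) ≤ ‖t‖ * ‖2 + t‖ := mul_le_mul_of_nonneg_left h6 (norm_nonneg _)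
    linarith
  have hβt : β ∈ b.target := by
    rw [hb.2]
    show β ∈ ball (0 : ℂ) 1
    rwa [mem_ball, dist_zero_right]
  have t4 : Tendsto (fun v => b.symm (b v)) U (𝓝 (b.symm β)) :=
    ((b.symm.continuousAt (x := β) hβt).tendsto).comp hbβ
  have t5 : Tendsto (fun v => v) U (𝓝 (b.symm β)) := by
    apply t4.congr'
    filter_upwards [hUb] with v hv
    exact b.left_inv hv
  have h10 : y' = b.symm β := tendsto_nhds_unique (show Tendsto (fun v => v) U (𝓝 y') from hUn) t5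
  rw [h10]
  exact b.map_target hβt

/-- the area of a small disc around a point of a cone ball -/
theorem disc_area (hM : SB_MEAS.{u}) (hR : SB_RAT.{u}) (hCBB : SB_CBB.{u}) (S : D.Scale)
    (R : D.Ref) (p x : X) (k : ℕ) (ψ : OpenPartialHomeomorph X ℂ)
    (hψ : D.IsConeBall p k ψ)
    (hfl : ∀ x ∈ ψ.source, x ≠ p →
      ∀ e, D.IsChart e → x ∈ e.source → ∀ (a : ℝ) (b : ℂ), a ≠ 0 →
      (∀ᶠ y in 𝓝 x, (a * e y + b) ^ 2 = ψ y ^ k) → S.u e x = - Real.log |a|)
    (hx : x ∈ ψ.source) (hx4 : ‖ψ x‖ < 1 / 4) (hxp : ψ x ≠ 0) (c : ℝ) (c0 : 0 < c)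
    (c1 : c ≤ 1) (hc : ∀ δ : ℂ, ‖δ‖ < c → ‖(1 + δ) ^ k - 1‖ < 3 / 4) :
    S.area R {y | y ∈ ψ.source ∧ ‖ψ y - ψ x‖ < c * ‖ψ x‖} ≤
      ENNReal.ofReal ‖ψ x‖ * volume B1 := by
  have hxnp : x ≠ p := by
    rintro rfl
    exact hxp hψ.zero
  obtain ⟨b, z0, hb, hxb, -, hz0, hbψ, hall⟩ := hCBB X D p k ψ hψ x hx hxnp hx4
  have hz0n : z0 ≠ 0 := by
    intro h
    rw [h] at hz0
    have : ψ x ^ k = 0 := by rw [← hz0]; simp
    exact hxp ((pow_eq_zero_iff (by have := hψ.one_le; omega)).1 this)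
  have hz0pos : 0 < ‖z0‖ := norm_pos_iff.2 hz0n
  have hsub : {y | y ∈ ψ.source ∧ ‖ψ y - ψ x‖ < c * ‖ψ x‖} ⊆ b.source := by
    rintro y ⟨hy, hyx⟩
    exact disc_subset p x k ψ b hψ hx hx4 hxp hb hxb z0 hz0 (fun y hy => (hall y hy).2.1) c c0 c1
      hc y hy hyx
  refine (measure_mono hsub).trans ?_
  apply area_le hM hR S R b hb b.source b.open_source.measurableSet subset_rfl
  intro z hz hzb
  have hu : S.u b (b.symm z) = - Real.log |‖z0‖ / 2| := by
    apply hfl _ (hbψ hzb) (hall _ hzb).1 b hb.1 hzb _ z0 (by positivity)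
    filter_upwards [b.open_source.mem_nhds hzb] with y hy
    exact (hall y hy).2.1
  rw [hu, abs_of_pos (by positivity)]
  have h1 : Real.exp (-2 * -Real.log (‖z0‖ / 2)) = (‖z0‖ / 2) ^ 2 := by
    have : -2 * -Real.log (‖z0‖ / 2) = (2 : ℕ) * Real.log (‖z0‖ / 2) := by push_cast; ring
    rw [this, Real.exp_nat_mul, Real.exp_log (by positivity)]
  rw [h1]
  have h2 : ‖z0‖ ^ 2 = ‖ψ x‖ ^ k := by rw [← norm_pow, hz0, norm_pow]
  have h3 : ‖ψ x‖ ^ k ≤ ‖ψ x‖ := by
    have := pow_le_pow_of_le_one (norm_nonneg (ψ x)) (by linarith) hψ.one_le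
    simpa using this
  nlinarith

theorem finite_cone (hM : SB_MEAS.{u}) (hR : SB_RAT.{u}) (hCBB : SB_CBB.{u}) (S : D.Scale)
    (R : D.Ref) (p : X) (hp : p ∈ D.cone) : ∃ A ∈ 𝓝 p, S.area R A < ⊤ := by
  obtain ⟨k, ψ, hψ, hfl⟩ := S.flat p hp
  -- the constant `c`
  obtain ⟨c, c0, c1, hc⟩ : ∃ c : ℝ, 0 < c ∧ c ≤ 1 ∧
      ∀ δ : ℂ, ‖δ‖ < c → ‖(1 + δ) ^ k - 1‖ < 3 / 4 := by
    have hcont : ContinuousAt (fun δ : ℂ => (1 + δ) ^ k - 1) 0 := by fun_prop
    have h1 := Metric.continuousAt_iff.1 hcont (3 / 4) (by norm_num)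
    obtain ⟨c, c0, hc⟩ := h1
    refine ⟨min c 1, lt_min c0 one_pos, min_le_right _ _, fun δ hδ => ?_⟩
    have h2 := hc (x := δ) (by rw [dist_zero_right]; exact hδ.trans_le (min_le_left _ _))
    simpa [dist_eq_norm] using h2
  -- finite cover of the annulus
  have hK : IsCompact {w : ℂ | 1 / 2 ≤ ‖w‖ ∧ ‖w‖ ≤ 1} := by
    apply (isCompact_closedBall (0 : ℂ) 1).of_isClosed_subset
    · exact (isClosed_le continuous_const continuous_norm).inter
        (isClosed_le continuous_norm continuous_const)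
    · intro w hw
      simpa using hw.2
  obtain ⟨T, hTK, hTc⟩ := hK.elim_nhds_subcover (fun w => ball w (c * (1 / 2)))
    (fun w _ => ball_mem_nhds w (by positivity))
  let A : ℕ → Set X := fun j => {y | y ∈ ψ.source ∧ (1 / 8) * (1 / 2) ^ j * (1 / 2) ≤ ‖ψ y‖ ∧
    ‖ψ y‖ ≤ (1 / 8) * (1 / 2) ^ j}
  have hA : ∀ j, S.area R (A j) ≤ T.card * (ENNReal.ofReal ((1 / 2) ^ j) * volume B1) := by
    intro j
    set r : ℝ := (1 / 8) * (1 / 2) ^ j with hr
    have hrpos : 0 < r := by positivity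
    have hpow : ((1 : ℝ) / 2) ^ j ≤ 1 := pow_le_one₀ (by norm_num) (by norm_num)
    have hr8 : r ≤ 1 / 8 := by rw [hr]; linarith
    have htgt : ∀ w ∈ T, (r : ℂ) * w ∈ ψ.target ∧ ‖(r : ℂ) * w‖ ≤ 1 / 8 ∧
        (r : ℂ) * w ≠ 0 ∧ ‖(r : ℂ) * w‖ ≤ (1 / 2) ^ j := by
      intro w hw
      have hwK := hTK w hw
      have h1 : ‖(r : ℂ) * w‖ = r * ‖w‖ := by
        rw [norm_mul, Complex.norm_real, Real.norm_eq_abs, abs_of_pos hrpos]
      have h2 : r * ‖w‖ ≤ r := by nlinarith [hwK.2]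
      refine ⟨?_, by rw [h1]; linarith, ?_, ?_⟩
      · rw [hψ.tgt]
        show _ ∈ ball (0 : ℂ) 1
        rw [mem_ball, dist_zero_right, h1]
        linarith
      · intro h3
        rw [h3, norm_zero] at h1
        have : 0 < r * ‖w‖ := mul_pos hrpos (by linarith [hwK.1])
        linarith
      · rw [h1]
        have : (0 : ℝ) < (1 / 2) ^ j := by positivity
        linarith
    have hcov : A j ⊆ ⋃ w ∈ T, {y | y ∈ ψ.source ∧
        ‖ψ y - ψ (ψ.symm (r * w))‖ < c * ‖ψ (ψ.symm (r * w))‖} := by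
      rintro y ⟨hy, hy1, hy2⟩
      have hyK : ψ y / r ∈ {w : ℂ | 1 / 2 ≤ ‖w‖ ∧ ‖w‖ ≤ 1} := by
        have h1 : ‖ψ y / r‖ = ‖ψ y‖ / r := by
          rw [norm_div, Complex.norm_real, Real.norm_eq_abs, abs_of_pos hrpos]
        constructor
        · rw [h1, le_div_iff₀ hrpos]; linarith
        · rw [h1, div_le_one hrpos]; exact hy2
      have h2 := hTc hyK
      rw [mem_iUnion₂] at h2 ⊢
      obtain ⟨w, hw, hyw⟩ := h2
      refine ⟨w, hw, hy, ?_⟩
      rw [ψ.right_inv (htgt w hw).1]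
      rw [mem_ball, dist_eq_norm] at hyw
      have hr0 : (r : ℂ) ≠ 0 := by exact_mod_cast hrpos.ne'
      have h3 : ψ y - r * w = r * (ψ y / r - w) := by field_simp
      rw [h3, norm_mul, norm_mul, Complex.norm_real, Real.norm_eq_abs, abs_of_pos hrpos]
      have hwK := (hTK w hw).1
      have h4 : ‖ψ y / r - w‖ < c * ‖w‖ := by nlinarith
      nlinarith
    refine (measure_mono hcov).trans ((measure_biUnion_finset_le _ _).trans ?_)
    have h5 : ∀ w ∈ T, S.area R {y | y ∈ ψ.source ∧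
        ‖ψ y - ψ (ψ.symm (r * w))‖ < c * ‖ψ (ψ.symm (r * w))‖} ≤
        ENNReal.ofReal ((1 / 2) ^ j) * volume B1 := by
      intro w hw
      obtain ⟨g1, g2, g3, g4⟩ := htgt w hw
      have h6 := disc_area hM hR hCBB S R p (ψ.symm (r * w)) k ψ hψ hfl (ψ.map_target g1)
        (by rw [ψ.right_inv g1]; linarith) (by rw [ψ.right_inv g1]; exact g3) c c0 c1 hc
      refine h6.trans ?_
      gcongr
      rw [ψ.right_inv g1]
      exact g4
    refine (Finset.sum_le_sum h5).trans ?_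
    rw [Finset.sum_const, nsmul_eq_mul]
  have hpz : S.area R {p} = 0 := by
    have h0 := (hM X D R).1
    have h1 : R.mu {p} = 0 := measure_mono_null (by simpa using hp) h0
    exact withDensity_absolutelyContinuous _ _ h1
  refine ⟨ψ.source ∩ ψ ⁻¹' (ball 0 (1 / 8)), ?_, ?_⟩
  · apply (ψ.isOpen_inter_preimage isOpen_ball).mem_nhds
    refine ⟨hψ.src, ?_⟩
    show ψ p ∈ ball (0 : ℂ) (1 / 8)
    rw [hψ.zero]
    exact mem_ball_self (by norm_num)
  · have hcov : ψ.source ∩ ψ ⁻¹' (ball 0 (1 / 8)) ⊆ {p} ∪ ⋃ j, A j := by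
      rintro y ⟨hy, hy8⟩
      by_cases hyp : y = p
      · left; exact hyp
      right
      have hψy : ψ y ≠ 0 := by
        intro h
        apply hyp
        apply ψ.injOn hy hψ.src
        rw [h, hψ.zero]
      have hpos : 0 < ‖ψ y‖ := norm_pos_iff.2 hψy
      have hlt : ‖ψ y‖ < 1 / 8 := by
        have : ψ y ∈ ball (0 : ℂ) (1 / 8) := hy8
        simpa using this
      -- find `j`
      obtain ⟨j, hj1, hj2⟩ : ∃ j : ℕ, (1 / 2 : ℝ) ^ (j + 1) < 8 * ‖ψ y‖ ∧
          8 * ‖ψ y‖ ≤ (1 / 2) ^ j :=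
        exists_nat_pow_near_of_lt_one (by linarith) (by linarith) (by norm_num) (by norm_num)
      rw [mem_iUnion]
      refine ⟨j, hy, ?_, ?_⟩
      · rw [pow_succ] at hj1
        linarith
      · linarith
    refine (measure_mono hcov).trans_lt ((measure_union_le _ _).trans_lt ?_)
    rw [hpz, zero_add]
    refine (measure_iUnion_le _).trans_lt ((ENNReal.tsum_le_tsum hA).trans_lt ?_)
    rw [ENNReal.tsum_mul_left, ENNReal.tsum_mul_right]
    apply ENNReal.mul_lt_top (by simp)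
    apply ENNReal.mul_lt_top _ volB1
    rw [← ENNReal.ofReal_tsum_of_nonneg (fun n => by positivity)
      (summable_geometric_of_lt_one (by norm_num) (by norm_num))]
    exact ENNReal.ofReal_lt_top

end

theorem st_AREA (hM : SB_MEAS.{u}) (hR : SB_RAT.{u}) (hB : SB_BALL.{u}) (hCBB : SB_CBB.{u}) :
    SB_AREA.{u} := by
  intro X _ _ _ _ _ D R S
  constructor
  · constructor
    apply isCompact_univ.measure_lt_top_of_nhdsWithin
    intro x _
    rw [nhdsWithin_univ]
    by_cases hx : x ∈ D.cone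
    · obtain ⟨A, hA, hA2⟩ := finite_cone hM hR hCBB S R x hx
      exact ⟨A, hA, hA2⟩
    · obtain ⟨A, hA, hA2⟩ := finite_regular hM hR hB S R x hx
      exact ⟨A, hA, hA2⟩
  · obtain ⟨h0, -, -, hpos, hidx, -⟩ := hM X D R
    obtain ⟨ρ', hρm, hρ⟩ := rho_meas S R hidx
    constructor
    intro U hU hUne hzero
    rw [area_apply hM S R ρ' hρ U hU.measurableSet] at hzero
    rw [lintegral_eq_zero_iff hρm] at hzero
    have h1 : R.mu.restrict U {x | ρ' x ≠ 0} = 0 := hzero
    have h2 : R.mu U ≤ 0 := by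
      calc R.mu U = R.mu.restrict U univ := by rw [Measure.restrict_apply_univ]
        _ ≤ R.mu.restrict U ({x | ρ' x ≠ 0} ∪ D.cone) := by
            apply measure_mono
            intro x _
            by_cases hx : x ∈ D.cone
            · right; exact hx
            · left
              show ρ' x ≠ 0
              rw [hρ x hx]
              unfold rho
              have := Real.exp_pos (-2 * S.u (R.ch x) x)
              simpa using this
        _ ≤ R.mu.restrict U {x | ρ' x ≠ 0} + R.mu.restrict U D.cone := measure_union_le _ _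
        _ = 0 := by
            rw [h1, zero_add]
            exact Measure.restrict_le_self.absolutelyContinuous h0
    have h3 := hpos U hU hUne
    exact absurd h3 (not_lt.2 h2)

end Pool.Agent.Helper91.Dil
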