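import Pool.Agent.Helper73.Dil.Pure2

open Topology Set Filter MeasureTheory Metric
open scoped Pointwise

namespace Pool.Agent.Helper91.Dil

open Pool.Agent.Helper73.Dil

universe u

theorem sctM : SecondCountableTopology (Matrix (Fin 2) (Fin 2) ℝ) := by
  have h : SecondCountableTopology (Fin 2 → Fin 2 → ℝ) := inferInstance
  exact h

theorem sctG : SecondCountableTopology G := by
  have := sctM
  have h : SecondCountableTopology (↥{A : Matrix (Fin 2) (Fin 2) ℝ | A.det = 1}) :=
    TopologicalSpace.Subtype.secondCountableTopology _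
  exact h

theorem countable_of_disc (Γ : Subgroup G) (hΓ : DiscreteTopology Γ) : Countable Γ := by
  have := sctG
  have h : TopologicalSpace.SeparableSpace Γ := inferInstance
  exact TopologicalSpace.separableSpace_iff_countable.1 h

theorem countable_op (Γ : Subgroup G) (hΓ : DiscreteTopology Γ) : Countable Γ.op := by
  have := countable_of_disc Γ hΓ
  exact Countable.of_equiv Γ Γ.equivOp

theorem rot_continuous : Continuous rot := by
  have h : Continuous fun θ : ℝ => (!![Real.cos θ, -Real.sin θ; Real.sin θ, Real.cos θ] :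
      Matrix (Fin 2) (Fin 2) ℝ) := by
    refine continuous_pi fun i => continuous_pi fun j => ?_
    fin_cases i <;> fin_cases j <;> simp <;> fun_prop
  exact h.subtype_mk _

/-- translating an invariant function by a left translation does not change the integral over the
fundamental domain -/
theorem inv_avg (Γ : Subgroup G) (hΓ : DiscreteTopology Γ) (μ : Measure G)
    (hμ : μ.IsHaarMeasure) (hr : μ.IsMulRightInvariant) (D : Set G)
    (hD : IsFundamentalDomain Γ.op D μ) (f : G → ℝ) (hf : ∀ γ ∈ Γ, ∀ g, f (g * γ) = f g) (x : G) :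
    ∫ g in D, f (x * g) ∂μ = ∫ g in D, f g ∂μ := by
  have := sctG
  have := countable_op Γ hΓ
  have hxD : IsFundamentalDomain Γ.op (x • D) μ := hD.smul_of_comm x
  have h1 : ∫ g in x • D, f g ∂μ = ∫ g in D, f g ∂μ := by
    apply hxD.setIntegral_eq hD
    rintro ⟨γ, hγ⟩ g
    exact hf γ.unop (by simpa using hγ) g
  rw [← h1]
  have h2 := (measurePreserving_mul_left μ x).setIntegral_preimage_emb
    (measurableEmbedding_mulLeft x) f (x • D)
  rw [← h2]
  congr 2
  ext g
  simp only [Set.mem_preimage, Set.mem_smul_set_iff_inv_smul_mem]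
  simp

/-- the circle average -/
noncomputable def Av (r : ℝ) (f : G → ℝ) (g : G) : ℝ :=
  (1 / (2 * Real.pi)) * ∫ θ in (0 : ℝ)..(2 * Real.pi), f (dia r * rot θ * g)

theorem two_pi_pos : 0 < 2 * Real.pi := by positivity

theorem av_const (r c : ℝ) (g : G) : Av r (fun _ => c) g = c := by
  unfold Av
  have := two_pi_pos
  rw [intervalIntegral.integral_const, sub_zero, smul_eq_mul]
  field_simp

theorem path_continuous (r : ℝ) (f : G → ℝ) (hf : Continuous f) (g : G) :
    Continuous fun θ => f (dia r * rot θ * g) := by
  have := rot_continuous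
  fun_prop

theorem av_mono (r : ℝ) (f f' : G → ℝ) (hf : Continuous f) (hf' : Continuous f')
    (h : ∀ g, f g ≤ f' g) (g : G) : Av r f g ≤ Av r f' g := by
  unfold Av
  have := two_pi_pos
  apply mul_le_mul_of_nonneg_left _ (by positivity)
  apply intervalIntegral.integral_mono_on this.le
    ((path_continuous r f hf g).intervalIntegrable _ _)
    ((path_continuous r f' hf' g).intervalIntegrable _ _)
  intro θ _
  exact h _

theorem av_continuous (r : ℝ) (f : G → ℝ) (hf : Continuous f) : Continuous (Av r f) := by
  unfold Av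
  apply Continuous.mul continuous_const
  apply intervalIntegral.continuous_parametric_intervalIntegral_of_continuous'
  have := rot_continuous
  show Continuous fun p : G × ℝ => f (dia r * rot p.2 * p.1)
  fun_prop

theorem av_integral (Γ : Subgroup G) (hΓ : DiscreteTopology Γ) (μ : Measure G)
    (hμ : μ.IsHaarMeasure) (hr : μ.IsMulRightInvariant) (D : Set G)
    (hD : IsFundamentalDomain Γ.op D μ) (hDf : μ D < ⊤) (f : G → ℝ)
    (hf : ∀ γ ∈ Γ, ∀ g, f (g * γ) = f g) (hc : Continuous f) (M : ℝ) (hM : ∀ g, |f g| ≤ M) (r : ℝ) :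
    ∫ g in D, Av r f g ∂μ = ∫ g in D, f g ∂μ := by
  have := sctG
  have : IsFiniteMeasure (μ.restrict D) := ⟨by simpa using hDf⟩
  have hpi := two_pi_pos
  unfold Av
  rw [MeasureTheory.integral_const_mul]
  have hcc : Continuous fun p : ℝ × G => f (dia r * rot p.1 * p.2) := by
    have := rot_continuous
    fun_prop
  rw [← intervalIntegral_integral_swap (f := fun θ g => f (dia r * rot θ * g))]
  · have h1 : ∀ θ, ∫ g in D, f (dia r * rot θ * g) ∂μ = ∫ g in D, f g ∂μ := fun θ =>
      inv_avg Γ hΓ μ hμ hr D hD f hf _
    simp only [h1]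
    rw [intervalIntegral.integral_const, sub_zero, smul_eq_mul]
    field_simp
  · have : IsFiniteMeasure (volume.restrict (uIoc 0 (2 * Real.pi))) :=
      ⟨by rw [Measure.restrict_apply_univ, Set.uIoc_of_le hpi.le]; exact measure_Ioc_lt_top⟩
    apply Integrable.of_bound (C := M)
    · exact hcc.aestronglyMeasurable
    · exact Filter.Eventually.of_forall fun p => by
        rw [Real.norm_eq_abs]
        exact hM _

/-- a bounded continuous invariant function with `Av f ≤ f` has `Av f = f` -/
theorem av_eq (Γ : Subgroup G) (hΓ : DiscreteTopology Γ) (μ : Measure G)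
    (hμ : μ.IsHaarMeasure) (hr : μ.IsMulRightInvariant) (D : Set G)
    (hD : IsFundamentalDomain Γ.op D μ) (hDf : μ D < ⊤) (f : G → ℝ)
    (hf : ∀ γ ∈ Γ, ∀ g, f (g * γ) = f g) (hc : Continuous f) (M : ℝ) (hM : ∀ g, |f g| ≤ M) (r : ℝ)
    (hle : ∀ g, Av r f g ≤ f g) (g : G) : Av r f g = f g := by
  have := sctG
  have := countable_op Γ hΓ
  have : IsFiniteMeasure (μ.restrict D) := ⟨by simpa using hDf⟩
  have hcA := av_continuous r f hc
  have hAM : ∀ g, |Av r f g| ≤ M := by
    intro g
    rw [abs_le]
    constructor
    · have := av_mono r (fun _ => -M) f continuous_const hc (fun g => (abs_le.1 (hM g)).1) g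
      rwa [av_const] at this
    · have := av_mono r f (fun _ => M) hc continuous_const (fun g => (abs_le.1 (hM g)).2) g
      rwa [av_const] at this
  have i1 : Integrable f (μ.restrict D) :=
    Integrable.of_bound hc.aestronglyMeasurable M (Eventually.of_forall fun g => hM g)
  have i2 : Integrable (Av r f) (μ.restrict D) :=
    Integrable.of_bound hcA.aestronglyMeasurable M (Eventually.of_forall fun g => hAM g)
  have h0 : ∫ g in D, (f g - Av r f g) ∂μ = 0 := by
    rw [integral_sub i1 i2, av_integral Γ hΓ μ hμ hr D hD hDf f hf hc M hM r, sub_self]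
  have h1 : (fun g => f g - Av r f g) =ᵐ[μ.restrict D] 0 :=
    (integral_eq_zero_iff_of_nonneg (fun g => sub_nonneg.2 (hle g)) (i1.sub i2)).1 h0
  have hinv : ∀ γ ∈ Γ, ∀ g, Av r f (g * γ) = Av r f g := by
    intro γ hγ g
    unfold Av
    congr 2
    ext θ
    rw [← mul_assoc]
    exact hf γ hγ _
  set T : Set G := {g | f g - Av r f g ≠ 0} with hT
  have hTD : μ (T ∩ D) = 0 := by
    have h2 : μ.restrict D T = 0 := h1
    have hTo : IsOpen T := isOpen_ne_fun (hc.sub hcA) continuous_const
    rwa [Measure.restrict_apply hTo.measurableSet] at h2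
  have hTi : ∀ γ : Γ.op, γ • T = T := by
    have key : ∀ (γ : Γ.op) (g : G), g ∈ T ↔ γ • g ∈ T := by
      rintro ⟨γ, hγ⟩ g
      have hγ' : γ.unop ∈ Γ := by simpa using hγ
      show f g - Av r f g ≠ 0 ↔ f (g * γ.unop) - Av r f (g * γ.unop) ≠ 0
      rw [hf _ hγ', hinv _ hγ']
    intro γ
    ext g
    rw [Set.mem_smul_set_iff_inv_smul_mem]
    exact (key γ⁻¹ g).symm
  have hT0 : μ T = 0 := hD.measure_zero_of_invariant T hTi hTD
  have h3 : (fun g => f g - Av r f g) =ᵐ[μ] fun _ => 0 := hT0
  have h4 := (Continuous.ae_eq_iff_eq μ (hc.sub hcA) continuous_const).1 h3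
  have h5 : f g - Av r f g = 0 := congrFun h4 g
  linarith

theorem st_STEPA (hA : ST_ABSA1.{u}) (hMean : ST_MEAN) (hTr : ST_TRANS) (hU : ST_UNIMOD) :
    ST_STEPA.{u} := by
  intro H _ _ _ A Γ hΓ hinv
  obtain ⟨hΓd, μ, hμ, D, hD, hDf⟩ := hΓ
  have hr : μ.IsMulRightInvariant := hU μ hμ
  obtain ⟨hpos, hcont, htouch⟩ := hA H A
  -- facts on `tau`
  have htau : ∀ g, tau g ∈ UH := by
    have := (hMean (fun _ => 0) (differentiableOn_const _) 0 1 le_rfl).1
    exact this
  have htauc : Continuous fun g => tau g :=
    (hMean (fun _ => 0) (differentiableOn_const _) 0 1 le_rfl).2.1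
  have htaur : ∀ θ g, tau (rot θ * g) = tau g :=
    (hMean (fun _ => 0) (differentiableOn_const _) 0 1 le_rfl).2.2.1
  set F : G → ℝ := fun g => 1 / En A (tau g) with hF
  have hFc : Continuous F := by
    have h1 : Continuous fun g => En A (tau g) :=
      hcont.comp_continuous htauc htau
    exact continuous_const.div h1 fun g => (hpos _ (htau g)).ne'
  have hFpos : ∀ g, 0 < F g := fun g => by
    have := hpos _ (htau g)
    simp only [hF]
    positivity
  have hFrot : ∀ θ g, F (rot θ * g) = F g := fun θ g => by simp only [hF, htaur]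
  have hFinv : ∀ γ ∈ Γ, ∀ g, F (g * γ) = F g := fun γ hγ g => by
    simp only [hF, hinv γ hγ g]
  -- superharmonicity
  have hsup : ∀ r, 0 ≤ r → ∀ g, Av r F g ≤ F g := by
    intro r hr0 g
    obtain ⟨h, hh, hle, heq⟩ := htouch (tau g) (htau g)
    have hm := (hMean h hh r g hr0).2.2.2
    have hcont' : Continuous fun θ => h (tau (dia r * rot θ * g)) := by
      have h1 : Continuous fun θ => tau (dia r * rot θ * g) := by
        have := rot_continuous
        exact htauc.comp (by fun_prop)
      exact hh.continuousOn.comp_continuous h1 fun θ => htau _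
    have him : (1 / (2 * Real.pi)) * ∫ θ in (0 : ℝ)..(2 * Real.pi),
        (h (tau (dia r * rot θ * g))).im = (h (tau g)).im := by
      rw [← hm]
      have h2 : (∫ θ in (0 : ℝ)..(2 * Real.pi), (h (tau (dia r * rot θ * g))).im) =
          (∫ θ in (0 : ℝ)..(2 * Real.pi), h (tau (dia r * rot θ * g))).im := by
        have := Complex.imCLM.intervalIntegral_comp_comm
          (hcont'.intervalIntegrable (μ := volume) 0 (2 * Real.pi))
        simpa using this
      rw [h2]
      have h3 : (1 / (2 * (Real.pi : ℂ))) = ((1 / (2 * Real.pi) : ℝ) : ℂ) := by push_cast; rfl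
      rw [h3, Complex.im_ofReal_mul]
    have h4 : Av r F g ≤ (1 / (2 * Real.pi)) * ∫ θ in (0 : ℝ)..(2 * Real.pi),
        (h (tau (dia r * rot θ * g))).im := by
      unfold Av
      have h2pi := two_pi_pos
      apply mul_le_mul_of_nonneg_left _ (by positivity)
      apply intervalIntegral.integral_mono_on h2pi.le
        ((path_continuous r F hFc g).intervalIntegrable _ _)
        ((Complex.continuous_im.comp hcont').intervalIntegrable _ _)
      intro θ _
      exact hle _ (htau _)
    rw [him, heq] at h4
    exact h4
  -- truncations are harmonic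
  have htr : ∀ N : ℝ, 0 < N → ∀ r, 0 ≤ r → ∀ g, Av r (fun g => min (F g) N) g = min (F g) N := by
    intro N hN r hr0 g
    have hcN : Continuous fun g => min (F g) N := hFc.min continuous_const
    apply av_eq Γ hΓd μ hμ hr D hD hDf (fun g => min (F g) N)
      (fun γ hγ g => by simp only [hFinv γ hγ g]) hcN N
    · intro g
      rw [abs_le]
      constructor
      · have := (lt_min (hFpos g) hN).le
        linarith
      · exact min_le_right _ _
    · intro g
      apply le_min
      · exact (av_mono r _ F hcN hFc (fun g => min_le_left _ _) g).trans (hsup r hr0 g)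
      · have := av_mono r _ (fun _ => N) hcN continuous_const (fun g => min_le_right (F g) N) g
        rwa [av_const] at this
  -- `F` is constant
  have hconst : ∀ g g', F g ≤ F g' := by
    intro g g'
    by_contra hlt
    push Not at hlt
    set N := (F g + F g') / 2 with hN
    have hNpos : 0 < N := by have := hFpos g; have := hFpos g'; linarith
    obtain ⟨r, θ, θ', hr0, hgg⟩ := hTr.2 g g'
    have h1 := htr N hNpos r hr0 g
    have h2 : min (F g) N = N := min_eq_right (by linarith)
    rw [h2] at h1
    have h2pi := two_pi_pos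
    have hcN : Continuous fun g => min (F g) N := hFc.min continuous_const
    have hpc := path_continuous r _ hcN g
    -- the integral of the nonnegative function `N - min F N` vanishes
    have h3 : ∫ θ in (0 : ℝ)..(2 * Real.pi), (N - min (F (dia r * rot θ * g)) N) = 0 := by
      rw [intervalIntegral.integral_sub (by simp) (hpc.intervalIntegrable _ _),
        intervalIntegral.integral_const, sub_zero, smul_eq_mul]
      unfold Av at h1
      field_simp at h1
      linarith
    have hall : ∀ x, N ≤ F (dia r * rot x * g) := by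
      have hper : ∀ x, x ∈ Set.Icc (0 : ℝ) (2 * Real.pi) → N ≤ F (dia r * rot x * g) := by
        by_contra hex
        push Not at hex
        obtain ⟨x, hx, hxN⟩ := hex
        have : 0 < ∫ θ in (0 : ℝ)..(2 * Real.pi), (N - min (F (dia r * rot θ * g)) N) := by
          apply intervalIntegral.integral_pos h2pi
          · exact (continuous_const.sub hpc).continuousOn
          · intro y _
            exact sub_nonneg.2 (min_le_right _ _)
          · refine ⟨x, hx, ?_⟩
            rw [min_eq_left hxN.le]
            linarith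
        linarith
      intro x
      obtain ⟨y, hy, hxy⟩ : ∃ y ∈ Set.Icc (0 : ℝ) (2 * Real.pi), rot x = rot y := by
        refine ⟨toIcoMod two_pi_pos 0 x, ?_, ?_⟩
        · have := toIcoMod_mem_Ico two_pi_pos 0 x
          rw [zero_add] at this
          exact ⟨this.1, this.2.le⟩
        · apply Subtype.ext
          have h5 : x = toIcoMod two_pi_pos 0 x + toIcoDiv two_pi_pos 0 x * (2 * Real.pi) := by
            have := toIcoMod_add_toIcoDiv_zsmul two_pi_pos 0 x
            rw [zsmul_eq_mul] at this
            exact this.symm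
          have hc1 : Real.cos x = Real.cos (toIcoMod two_pi_pos 0 x) := by
            conv_lhs => rw [h5]
            exact Real.cos_add_int_mul_two_pi _ _
          have hs1 : Real.sin x = Real.sin (toIcoMod two_pi_pos 0 x) := by
            conv_lhs => rw [h5]
            exact Real.sin_add_int_mul_two_pi _ _
          show !![Real.cos x, -Real.sin x; Real.sin x, Real.cos x] = _
          rw [hc1, hs1]
          rfl
      rw [hxy]
      exact hper y hy
    have h6 : F g' = F (dia r * rot θ * g) := by
      rw [hgg]
      have : rot θ' * dia r * rot θ * g = rot θ' * (dia r * rot θ * g) := by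
        simp only [mul_assoc]
      rw [this, hFrot]
    have h7 := hall θ
    rw [← h6] at h7
    linarith
  refine ⟨En A (tau 1), hpos _ (htau 1), ?_⟩
  intro t ht
  obtain ⟨g, hg⟩ := hTr.1 t ht
  have h8 : F g = F 1 := le_antisymm (hconst _ _) (hconst _ _)
  simp only [hF, hg] at h8
  have p1 := hpos t ht
  have p2 := hpos _ (htau 1)
  have h9 := congrArg (fun x => 1 / x) h8
  simpa using h9

end Pool.Agent.Helper91.Dil
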