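import Pool.Agent.Helper73.Dil.Pure

open Topology Set Filter MeasureTheory Metric

namespace Pool.Agent.Helper91.Dil

open Pool.Agent.Helper73.Dil

/-- coordinates of the traceless part -/
noncomputable def px (M : G) : ℝ := (M.1 0 0 - M.1 1 1) / 2
noncomputable def qx (M : G) : ℝ := M.1 0 1
noncomputable def rx (M : G) : ℝ := M.1 1 0
noncomputable def ax (M : G) : ℝ := (M.1 0 0 + M.1 1 1) / 2

theorem e00 (M : G) : M.1 0 0 = ax M + px M := by unfold ax px; ring
theorem e11 (M : G) : M.1 1 1 = ax M - px M := by unfold ax px; ring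
theorem e01 (M : G) : M.1 0 1 = qx M := rfl
theorem e10 (M : G) : M.1 1 0 = rx M := rfl

theorem det_eq (M : G) : M.1 0 0 * M.1 1 1 - M.1 0 1 * M.1 1 0 = 1 := by
  have := M.2
  rwa [Matrix.det_fin_two] at this

theorem ax_sq (M : G) : ax M ^ 2 = 1 + px M ^ 2 + qx M * rx M := by
  have := det_eq M
  rw [e00, e11, e01, e10] at this
  nlinarith

theorem ext_coord {M N : G} (h0 : ax M = ax N) (h1 : px M = px N) (h2 : qx M = qx N)
    (h3 : rx M = rx N) : M = N := by
  apply Subtype.ext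
  ext i j
  fin_cases i <;> fin_cases j
  · show M.1 0 0 = N.1 0 0
    rw [e00, e00, h0, h1]
  · show M.1 0 1 = N.1 0 1
    exact h2
  · show M.1 1 0 = N.1 1 0
    exact h3
  · show M.1 1 1 = N.1 1 1
    rw [e11, e11, h0, h1]

theorem tn_sq (M : G) : tn M ^ 2 = px M ^ 2 + (qx M ^ 2 + rx M ^ 2) / 2 := by
  unfold tn
  rw [Real.sq_sqrt (by positivity)]
  rfl

theorem tn_nonneg (M : G) : 0 ≤ tn M := Real.sqrt_nonneg _

theorem px_le (M : G) : |px M| ≤ tn M := by
  apply abs_le_of_sq_le_sq _ (tn_nonneg M)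
  rw [tn_sq]
  nlinarith [sq_nonneg (qx M), sq_nonneg (rx M)]

theorem qx_le (M : G) : |qx M| ≤ 2 * tn M := by
  apply abs_le_of_sq_le_sq _ (by have := tn_nonneg M; linarith)
  rw [mul_pow, tn_sq]
  nlinarith [sq_nonneg (qx M), sq_nonneg (rx M), sq_nonneg (px M)]

theorem rx_le (M : G) : |rx M| ≤ 2 * tn M := by
  apply abs_le_of_sq_le_sq _ (by have := tn_nonneg M; linarith)
  rw [mul_pow, tn_sq]
  nlinarith [sq_nonneg (qx M), sq_nonneg (rx M), sq_nonneg (px M)]

theorem ax_le (M : G) : |ax M| ≤ 1 + tn M := by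
  apply abs_le_of_sq_le_sq _ (by have := tn_nonneg M; linarith)
  rw [ax_sq]
  have h := tn_sq M
  have h0 := tn_nonneg M
  nlinarith [sq_nonneg (qx M - rx M)]

theorem entry_le (M : G) (h : tn M ≤ 1) (i j : Fin 2) : |M.1 i j| ≤ 4 := by
  have h1 := px_le M
  have h2 := qx_le M
  have h3 := rx_le M
  have h4 := ax_le M
  rw [abs_le] at *
  fin_cases i <;> fin_cases j
  · show -4 ≤ M.1 0 0 ∧ M.1 0 0 ≤ 4
    rw [e00]; constructor <;> linarith
  · show -4 ≤ M.1 0 1 ∧ M.1 0 1 ≤ 4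
    rw [e01]; constructor <;> linarith
  · show -4 ≤ M.1 1 0 ∧ M.1 1 0 ≤ 4
    rw [e10]; constructor <;> linarith
  · show -4 ≤ M.1 1 1 ∧ M.1 1 1 ≤ 4
    rw [e11]; constructor <;> linarith

theorem inv_entry_le (M : G) (h : tn M ≤ 1) (i j : Fin 2) : |(M⁻¹).1 i j| ≤ 4 := by
  rw [Matrix.SpecialLinearGroup.SL2_inv_expl]
  fin_cases i <;> fin_cases j
  · exact entry_le M h 1 1
  · show |-(M.1 0 1)| ≤ 4
    rw [abs_neg]; exact entry_le M h 0 1
  · show |-(M.1 1 0)| ≤ 4
    rw [abs_neg]; exact entry_le M h 1 0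
  · exact entry_le M h 0 0

/-- entries of the bracket of the matrices -/
theorem bracket_le (a b : G) (i j : Fin 2) :
    |(a.1 * b.1 - b.1 * a.1) i j| ≤ 8 * (tn a * tn b) := by
  have h1 := px_le a
  have h2 := qx_le a
  have h3 := rx_le a
  have h1' := px_le b
  have h2' := qx_le b
  have h3' := rx_le b
  have ta := tn_nonneg a
  have tb := tn_nonneg b
  have m1 : ∀ x y s t : ℝ, |x| ≤ s → |y| ≤ t → |x * y| ≤ s * t := by
    intro x y s t hx hy
    rw [abs_mul]
    exact mul_le_mul hx hy (abs_nonneg _) ((abs_nonneg _).trans hx)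
  fin_cases i <;> fin_cases j
  · have : (a.1 * b.1 - b.1 * a.1) 0 0 = qx a * rx b - qx b * rx a := by
      rw [Matrix.sub_apply, Matrix.mul_apply, Matrix.mul_apply, Fin.sum_univ_two,
        Fin.sum_univ_two, e01, e10, e01, e10]
      ring
    show |(a.1 * b.1 - b.1 * a.1) 0 0| ≤ _
    rw [this]
    have u1 := abs_le.1 (m1 _ _ _ _ h2 h3')
    have u2 := abs_le.1 (m1 _ _ _ _ h2' h3)
    rw [abs_le]
    constructor <;> nlinarith
  · have : (a.1 * b.1 - b.1 * a.1) 0 1 = 2 * (px a * qx b - px b * qx a) := by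
      rw [Matrix.sub_apply, Matrix.mul_apply, Matrix.mul_apply, Fin.sum_univ_two,
        Fin.sum_univ_two, e01, e01, e00, e11, e00, e11]
      ring
    show |(a.1 * b.1 - b.1 * a.1) 0 1| ≤ _
    rw [this]
    have u1 := abs_le.1 (m1 _ _ _ _ h1 h2')
    have u2 := abs_le.1 (m1 _ _ _ _ h1' h2)
    rw [abs_le]
    constructor <;> nlinarith
  · have : (a.1 * b.1 - b.1 * a.1) 1 0 = 2 * (px b * rx a - px a * rx b) := by
      rw [Matrix.sub_apply, Matrix.mul_apply, Matrix.mul_apply, Fin.sum_univ_two,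
        Fin.sum_univ_two, e10, e10, e00, e11, e00, e11]
      ring
    show |(a.1 * b.1 - b.1 * a.1) 1 0| ≤ _
    rw [this]
    have u1 := abs_le.1 (m1 _ _ _ _ h1 h3')
    have u2 := abs_le.1 (m1 _ _ _ _ h1' h3)
    rw [abs_le]
    constructor <;> nlinarith
  · have : (a.1 * b.1 - b.1 * a.1) 1 1 = qx b * rx a - qx a * rx b := by
      rw [Matrix.sub_apply, Matrix.mul_apply, Matrix.mul_apply, Fin.sum_univ_two,
        Fin.sum_univ_two, e01, e10, e01, e10]
      ring
    show |(a.1 * b.1 - b.1 * a.1) 1 1| ≤ _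
    rw [this]
    have u1 := abs_le.1 (m1 _ _ _ _ h2 h3')
    have u2 := abs_le.1 (m1 _ _ _ _ h2' h3)
    rw [abs_le]
    constructor <;> nlinarith

theorem mul_entry_le (C D : Matrix (Fin 2) (Fin 2) ℝ) (c d : ℝ) (hC : ∀ i j, |C i j| ≤ c)
    (hD : ∀ i j, |D i j| ≤ d) (i j : Fin 2) : |(C * D) i j| ≤ 2 * (c * d) := by
  have m1 : ∀ x y s t : ℝ, |x| ≤ s → |y| ≤ t → |x * y| ≤ s * t := by
    intro x y s t hx hy
    rw [abs_mul]
    exact mul_le_mul hx hy (abs_nonneg _) ((abs_nonneg _).trans hx)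
  rw [Matrix.mul_apply, Fin.sum_univ_two]
  have u1 := abs_le.1 (m1 _ _ _ _ (hC i 0) (hD 0 j))
  have u2 := abs_le.1 (m1 _ _ _ _ (hC i 1) (hD 1 j))
  rw [abs_le]
  constructor <;> linarith

theorem comm_sub_one (a b : G) :
    (a * b * a⁻¹ * b⁻¹).1 - 1 = (a.1 * b.1 - b.1 * a.1) * (a⁻¹.1 * b⁻¹.1) := by
  have h : b * a * a⁻¹ * b⁻¹ = 1 := by group
  have h' : (b * a * a⁻¹ * b⁻¹).1 = (1 : Matrix (Fin 2) (Fin 2) ℝ) := by rw [h]; rfl
  rw [← h']
  show a.1 * b.1 * a⁻¹.1 * b⁻¹.1 - b.1 * a.1 * a⁻¹.1 * b⁻¹.1 = _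
  simp only [sub_mul, mul_assoc]

theorem comm_entry_le (a b : G) (ha : tn a ≤ 1) (hb : tn b ≤ 1) (i j : Fin 2) :
    |((a * b * a⁻¹ * b⁻¹).1 - 1) i j| ≤ 512 * (tn a * tn b) := by
  rw [comm_sub_one]
  have := mul_entry_le _ _ _ _ (bracket_le a b) (mul_entry_le _ _ _ _ (inv_entry_le a ha)
    (inv_entry_le b hb)) i j
  linarith

theorem tn_le_of_entry (M : G) (z : ℝ) (h : ∀ i j, |(M.1 - 1) i j| ≤ z) : tn M ≤ 2 * z := by
  have h00 := abs_le.1 (h 0 0)
  have h01 := abs_le.1 (h 0 1)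
  have h10 := abs_le.1 (h 1 0)
  have h11 := abs_le.1 (h 1 1)
  simp only [Matrix.sub_apply, Matrix.one_apply_eq] at h00 h11
  have z01 : (1 : Matrix (Fin 2) (Fin 2) ℝ) 0 1 = 0 := by simp
  have z10 : (1 : Matrix (Fin 2) (Fin 2) ℝ) 1 0 = 0 := by simp
  rw [Matrix.sub_apply, z01, sub_zero] at h01
  rw [Matrix.sub_apply, z10, sub_zero] at h10
  have hz : 0 ≤ z := (abs_nonneg _).trans (h 0 0)
  apply le_of_sq_le_sq _ (by linarith)
  rw [tn_sq]
  have p1 : px M ^ 2 ≤ z ^ 2 := by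
    apply sq_le_sq' <;> (unfold px; linarith)
  have p2 : qx M ^ 2 ≤ z ^ 2 := by
    apply sq_le_sq' <;> (unfold qx; linarith)
  have p3 : rx M ^ 2 ≤ z ^ 2 := by
    apply sq_le_sq' <;> (unfold rx; linarith)
  nlinarith

theorem tn_comm_le (a b : G) (ha : tn a ≤ 1) (hb : tn b ≤ 1) :
    tn (a * b * a⁻¹ * b⁻¹) ≤ 1024 * (tn a * tn b) := by
  have := tn_le_of_entry _ _ (comm_entry_le a b ha hb)
  linarith

theorem tendsto_one_of_entry (c : ℕ → G) (z : ℕ → ℝ) (hz : Tendsto z atTop (𝓝 0))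
    (h : ∀ n i j, |((c n).1 - 1) i j| ≤ z n) : Tendsto c atTop (𝓝 1) := by
  refine tendsto_subtype_rng.2 ?_
  refine tendsto_pi_nhds.2 fun i => tendsto_pi_nhds.2 fun j => ?_
  have h1 : Tendsto (fun n => ((c n).1 - 1) i j) atTop (𝓝 0) :=
    squeeze_zero_norm (fun n => by simpa using h n i j) hz
  have h2 := h1.add_const ((1 : Matrix (Fin 2) (Fin 2) ℝ) i j)
  simpa [Matrix.sub_apply] using h2

theorem disc_lemma (Γ : Subgroup G) (hΓ : DiscreteTopology Γ) (g : G) (c : ℕ → G)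
    (hc : ∀ n, g⁻¹ * c n * g ∈ Γ) (hlim : Tendsto c atTop (𝓝 1)) : ∃ n, c n = 1 := by
  have h1 : Tendsto (fun n => g⁻¹ * c n * g) atTop (𝓝 1) := by
    have : Continuous fun x : G => g⁻¹ * x * g := by fun_prop
    have h2 := (this.tendsto 1).comp hlim
    simpa [Function.comp_def] using h2
  have h2 : Tendsto (fun n => (⟨g⁻¹ * c n * g, hc n⟩ : Γ)) atTop (𝓝 1) := by
    rw [tendsto_subtype_rng]
    exact h1
  have h3 : ∀ᶠ n in atTop, (⟨g⁻¹ * c n * g, hc n⟩ : Γ) = 1 := by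
    have := h2.eventually (isOpen_discrete ({1} : Set Γ) |>.mem_nhds rfl)
    exact this
  obtain ⟨n, hn⟩ := h3.exists
  refine ⟨n, ?_⟩
  have h4 : g⁻¹ * c n * g = 1 := congrArg Subtype.val hn
  have h5 : c n = g * (g⁻¹ * c n * g) * g⁻¹ := by group
  rw [h5, h4]
  group

/-- the power argument for unipotent elements -/
theorem pow_lemma (Γ : Subgroup G) (hΓ : DiscreteTopology Γ) (g y a : G) (A k : ℝ)
    (X : Matrix (Fin 2) (Fin 2) ℝ) (hy : g⁻¹ * y * g ∈ Γ) (ha : g⁻¹ * a * g ∈ Γ)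
    (haX : a.1 = A • 1 + X) (hyX : y.1 * X * y⁻¹.1 = k • X) (k0 : 0 < k) (k1 : k < 1)
    (hA : A * A = 1) (hX : X * X = 0) : X = 0 := by
  have hyy : y.1 * y⁻¹.1 = 1 := by
    have : (y * y⁻¹).1 = (1 : G).1 := by rw [mul_inv_cancel]
    exact this
  set c : ℕ → G := fun n => y ^ n * a * (y ^ n)⁻¹ with hcdef
  have hcn : ∀ n, (c n).1 = A • 1 + k ^ n • X := by
    intro n
    induction n with
    | zero => simp [hcdef, haX]
    | succ n ih =>
      have : c (n + 1) = y * c n * y⁻¹ := by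
        simp only [hcdef, pow_succ', mul_inv_rev]
        group
      rw [this]
      show y.1 * (c n).1 * y⁻¹.1 = _
      rw [ih]
      have e1 : y.1 * (A • 1 + k ^ n • X) * y⁻¹.1
          = A • (y.1 * y⁻¹.1) + k ^ n • (y.1 * X * y⁻¹.1) := by
        rw [mul_add, add_mul]
        simp [mul_smul_comm, smul_mul_assoc]
      rw [e1, hyy, hyX, smul_smul, pow_succ]
  have hcinv : ∀ n, ((c n)⁻¹).1 = A • 1 - k ^ n • X := by
    intro n
    have h1 : (c n).1 * (A • 1 - k ^ n • X) = 1 := by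
      rw [hcn]
      have : (A • (1 : Matrix (Fin 2) (Fin 2) ℝ) + k ^ n • X) * (A • 1 - k ^ n • X)
          = (A * A) • 1 - (k ^ n * k ^ n) • (X * X) := by
        simp only [add_mul, mul_sub, smul_mul_assoc, mul_smul_comm, one_mul, mul_one]
        module
      rw [this, hA, hX, smul_zero, sub_zero, one_smul]
    have h2 : ((c n)⁻¹).1 * (c n).1 = 1 := by
      have : ((c n)⁻¹ * (c n)).1 = (1 : G).1 := by rw [inv_mul_cancel]
      exact this
    calc ((c n)⁻¹).1 = ((c n)⁻¹).1 * ((c n).1 * (A • 1 - k ^ n • X)) := by rw [h1, mul_one]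
      _ = _ := by rw [← mul_assoc, h2, one_mul]
  have hgy : ∀ n, g⁻¹ * y ^ n * g ∈ Γ := by
    intro n
    have : g⁻¹ * y ^ n * g = (g⁻¹ * y * g) ^ n := by
      have := conj_pow (a := g⁻¹) (b := y) (i := n)
      simpa using this.symm
    rw [this]
    exact Γ.pow_mem hy n
  have hcΓ : ∀ n, g⁻¹ * c n * g ∈ Γ := by
    intro n
    have : g⁻¹ * c n * g = (g⁻¹ * y ^ n * g) * (g⁻¹ * a * g) * (g⁻¹ * y ^ n * g)⁻¹ := by
      simp only [hcdef]
      group
    rw [this]
    exact Γ.mul_mem (Γ.mul_mem (hgy n) ha) (Γ.inv_mem (hgy n))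
  have hprod : ∀ n, (c n * (c (n + 1))⁻¹).1 - 1 = (A * (1 - k) * k ^ n) • X := by
    intro n
    show (c n).1 * ((c (n + 1))⁻¹).1 - 1 = _
    rw [hcn, hcinv]
    have : (A • (1 : Matrix (Fin 2) (Fin 2) ℝ) + k ^ n • X) * (A • 1 - k ^ (n + 1) • X)
        = (A * A) • 1 - (A * k ^ (n + 1) - A * k ^ n) • X - (k ^ n * k ^ (n + 1)) • (X * X) := by
      simp only [add_mul, mul_sub, smul_mul_assoc, mul_smul_comm, one_mul, mul_one]
      module
    rw [this, hA, hX, smul_zero, sub_zero, one_smul, pow_succ]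
    rw [sub_sub_cancel_left, ← neg_smul]
    congr 1
    ring
  obtain ⟨n, hn⟩ := disc_lemma Γ hΓ g (fun n => c n * (c (n + 1))⁻¹) (fun n => by
    have : g⁻¹ * (c n * (c (n + 1))⁻¹) * g = (g⁻¹ * c n * g) * (g⁻¹ * c (n + 1) * g)⁻¹ := by
      group
    rw [this]
    exact Γ.mul_mem (hcΓ n) (Γ.inv_mem (hcΓ (n + 1)))) (by
    apply tendsto_one_of_entry _ (fun n => |A * (1 - k)| * (|X 0 0| + |X 0 1| + |X 1 0| + |X 1 1|)
      * k ^ n)
    · have := (tendsto_pow_atTop_nhds_zero_of_lt_one k0.le k1).const_mul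
        (|A * (1 - k)| * (|X 0 0| + |X 0 1| + |X 1 0| + |X 1 1|))
      simpa using this
    · intro n i j
      rw [hprod, Matrix.smul_apply, smul_eq_mul, abs_mul, abs_mul, abs_of_pos (pow_pos k0 n)]
      have hij : |X i j| ≤ |X 0 0| + |X 0 1| + |X 1 0| + |X 1 1| := by
        have a0 := abs_nonneg (X 0 0)
        have a1 := abs_nonneg (X 0 1)
        have a2 := abs_nonneg (X 1 0)
        have a3 := abs_nonneg (X 1 1)
        fin_cases i <;> fin_cases j <;> simp <;> linarith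
      have hk := pow_pos k0 n
      have : |A * (1 - k)| * k ^ n * |X i j| ≤
          |A * (1 - k)| * k ^ n * (|X 0 0| + |X 0 1| + |X 1 0| + |X 1 1|) :=
        mul_le_mul_of_nonneg_left hij (by positivity)
      linarith)
  have h5 := hprod n
  rw [hn] at h5
  have h6 : (A * (1 - k) * k ^ n) • X = 0 := by
    rw [← h5]
    show (1 : Matrix (Fin 2) (Fin 2) ℝ) - 1 = 0
    simp
  rcases smul_eq_zero.1 h6 with h | h
  · exfalso
    have hA0 : A ≠ 0 := by
      intro h0; rw [h0] at hA; norm_num at hA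
    have : (1 - k) ≠ 0 := by intro h0; linarith
    exact (mul_ne_zero (mul_ne_zero hA0 this) (pow_pos k0 n).ne') h
  · exact h

/-- matrix of the traceless part -/
noncomputable def Xm (a : G) : Matrix (Fin 2) (Fin 2) ℝ := !![px a, qx a; rx a, -px a]

theorem a_eq (a : G) : a.1 = ax a • 1 + Xm a := by
  ext i j
  fin_cases i <;> fin_cases j
  · show a.1 0 0 = (ax a • (1 : Matrix (Fin 2) (Fin 2) ℝ) + Xm a) 0 0
    rw [e00]; simp [Xm]
  · show a.1 0 1 = (ax a • (1 : Matrix (Fin 2) (Fin 2) ℝ) + Xm a) 0 1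
    rw [e01]; simp [Xm]
  · show a.1 1 0 = (ax a • (1 : Matrix (Fin 2) (Fin 2) ℝ) + Xm a) 1 0
    rw [e10]; simp [Xm]
  · show a.1 1 1 = (ax a • (1 : Matrix (Fin 2) (Fin 2) ℝ) + Xm a) 1 1
    rw [e11]; simp [Xm]; ring

theorem Xm_sq (a : G) : Xm a * Xm a = (px a ^ 2 + qx a * rx a) • 1 := by
  ext i j
  fin_cases i <;> fin_cases j <;> simp [Xm, Matrix.mul_apply, Fin.sum_univ_two] <;> ring

/-- commuting elements: cross products vanish -/
theorem cross_of_comm (a b : G) (h : a * b = b * a) :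
    qx a * rx b = qx b * rx a ∧ px a * qx b = px b * qx a ∧ px b * rx a = px a * rx b := by
  have h' : a.1 * b.1 = b.1 * a.1 := by
    have := congrArg Subtype.val h
    exact this
  have h00 := congrFun (congrFun h' 0) 0
  have h01 := congrFun (congrFun h' 0) 1
  have h10 := congrFun (congrFun h' 1) 0
  rw [Matrix.mul_apply, Matrix.mul_apply, Fin.sum_univ_two, Fin.sum_univ_two] at h00 h01 h10
  rw [e01, e10, e01, e10] at h00
  rw [e01, e01, e00, e11, e00, e11] at h01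
  rw [e10, e10, e00, e11, e00, e11] at h10
  refine ⟨?_, ?_, ?_⟩ <;> nlinarith

theorem conj_trace (y a : G) : ax (y * a * y⁻¹) = ax a := by
  have h1 : Matrix.trace (y.1 * a.1 * y⁻¹.1) = Matrix.trace a.1 := by
    rw [Matrix.trace_mul_cycle]
    have : y⁻¹.1 * y.1 = 1 := by
      have : (y⁻¹ * y).1 = (1 : G).1 := by rw [inv_mul_cancel]
      exact this
    rw [this, one_mul]
  rw [Matrix.trace_fin_two, Matrix.trace_fin_two] at h1
  unfold ax
  rw [← h1]
  rfl

theorem descend (Γ : Subgroup G) (hΓ : DiscreteTopology Γ) (g y a : G)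
    (hy : g⁻¹ * y * g ∈ Γ) (ha : g⁻¹ * a * g ∈ Γ) (hty : tn y < 1 / 2048) (hta : tn a < 1 / 2048)
    (h : a * (a * y * a⁻¹ * y⁻¹) = (a * y * a⁻¹ * y⁻¹) * a) : a * y = y * a := by
  -- `a` commutes with `y a y⁻¹`
  have hc : a * (y * a * y⁻¹) = (y * a * y⁻¹) * a := by
    have h1 : a⁻¹ * (a * (a * y * a⁻¹ * y⁻¹)) * a⁻¹ = a⁻¹ * ((a * y * a⁻¹ * y⁻¹) * a) * a⁻¹ := by
      rw [h]
    have h2 : a * (y * a⁻¹ * y⁻¹) * a⁻¹ = y * a⁻¹ * y⁻¹ := by
      calc a * (y * a⁻¹ * y⁻¹) * a⁻¹ = a⁻¹ * (a * (a * y * a⁻¹ * y⁻¹)) * a⁻¹ := by group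
        _ = a⁻¹ * ((a * y * a⁻¹ * y⁻¹) * a) * a⁻¹ := h1
        _ = y * a⁻¹ * y⁻¹ := by group
    have h3 : a * (y * a * y⁻¹) * a⁻¹ = y * a * y⁻¹ := by
      calc a * (y * a * y⁻¹) * a⁻¹ = (a * (y * a⁻¹ * y⁻¹) * a⁻¹)⁻¹ := by group
        _ = (y * a⁻¹ * y⁻¹)⁻¹ := by rw [h2]
        _ = y * a * y⁻¹ := by group
    calc a * (y * a * y⁻¹) = a * (y * a * y⁻¹) * a⁻¹ * a := by group
      _ = _ := by rw [h3]
  obtain ⟨x1, x2, x3⟩ := cross_of_comm _ _ hc
  have htr := conj_trace y a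
  have hfin : y * a * y⁻¹ = a → a * y = y * a := by
    intro h0
    calc a * y = (y * a * y⁻¹) * y := by rw [h0]
      _ = y * a := by group
  set a' := y * a * y⁻¹ with ha'
  by_cases hN : px a ^ 2 + qx a ^ 2 + rx a ^ 2 = 0
  · -- `a` is a scalar
    have p0 : px a = 0 := by nlinarith [sq_nonneg (px a), sq_nonneg (qx a), sq_nonneg (rx a)]
    have q0 : qx a = 0 := by nlinarith [sq_nonneg (px a), sq_nonneg (qx a), sq_nonneg (rx a)]
    have r0 : rx a = 0 := by nlinarith [sq_nonneg (px a), sq_nonneg (qx a), sq_nonneg (rx a)]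
    apply Subtype.ext
    show a.1 * y.1 = y.1 * a.1
    have hX : Xm a = 0 := by
      unfold Xm
      rw [p0, q0, r0]
      ext i j
      fin_cases i <;> fin_cases j <;> simp
    rw [a_eq, hX, add_zero, smul_mul_assoc, mul_smul_comm, one_mul, mul_one]
  have hNpos : 0 < px a ^ 2 + qx a ^ 2 + rx a ^ 2 :=
    lt_of_le_of_ne (by positivity) (Ne.symm hN)
  set k : ℝ := (px a * px a' + qx a * qx a' + rx a * rx a') / (px a ^ 2 + qx a ^ 2 + rx a ^ 2)
    with hk
  have kp : px a' = k * px a := by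
    rw [hk, div_mul_eq_mul_div, eq_div_iff hN]
    linear_combination (-(qx a)) * x2 + rx a * x3
  have kq : qx a' = k * qx a := by
    rw [hk, div_mul_eq_mul_div, eq_div_iff hN]
    linear_combination px a * x2 - rx a * x1
  have kr : rx a' = k * rx a := by
    rw [hk, div_mul_eq_mul_div, eq_div_iff hN]
    linear_combination (-(px a)) * x3 + qx a * x1
  have hdet : (k ^ 2 - 1) * (px a ^ 2 + qx a * rx a) = 0 := by
    have h1 := ax_sq a
    have h2 := ax_sq a'
    rw [htr, kp, kq, kr] at h2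
    nlinarith
  -- `|k - 1| < 1`
  have hXk : Xm a' = k • Xm a := by
    unfold Xm
    rw [kp, kq, kr]
    ext i j
    fin_cases i <;> fin_cases j <;> simp
  have hyy : y.1 * y⁻¹.1 = 1 := by
    have : (y * y⁻¹).1 = (1 : G).1 := by rw [mul_inv_cancel]
    exact this
  have hyy' : y⁻¹.1 * y.1 = 1 := by
    have : (y⁻¹ * y).1 = (1 : G).1 := by rw [inv_mul_cancel]
    exact this
  have hconjX : y.1 * Xm a * y⁻¹.1 = k • Xm a := by
    have h1 : a'.1 = y.1 * a.1 * y⁻¹.1 := rfl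
    rw [a_eq a', a_eq a, htr, hXk, mul_add, add_mul] at h1
    rw [mul_smul_comm, mul_one, smul_mul_assoc, hyy] at h1
    exact (add_left_cancel h1).symm
  have hdiff : ∀ i j, |(k - 1) * Xm a i j| ≤ 64 * (tn y * tn a) := by
    intro i j
    have h1 : (k - 1) • Xm a = (y.1 * a.1 - a.1 * y.1) * y⁻¹.1 := by
      have h2 : y.1 * a.1 - a.1 * y.1 = y.1 * Xm a - Xm a * y.1 := by
        rw [a_eq a, mul_add, add_mul, mul_smul_comm, smul_mul_assoc, mul_one, one_mul]
        abel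
      rw [h2, sub_mul, hconjX, mul_assoc, hyy, mul_one, sub_smul, one_smul]
    have h2 : (k - 1) * Xm a i j = ((y.1 * a.1 - a.1 * y.1) * y⁻¹.1) i j := by
      rw [← h1]; simp
    rw [h2]
    have := mul_entry_le _ _ _ _ (bracket_le y a) (inv_entry_le y (by linarith)) i j
    linarith
  have hta0 : 0 < tn a := by
    have h1 := tn_sq a
    have h2 : 0 < tn a ^ 2 := by
      rw [h1]; nlinarith [sq_nonneg (px a), sq_nonneg (qx a), sq_nonneg (rx a)]
    have h3 := tn_nonneg a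
    rcases h3.lt_or_eq with h | h
    · exact h
    · rw [← h] at h2; norm_num at h2
  have hk1 : |k - 1| < 1 := by
    have d1 := hdiff 0 0
    have d2 := hdiff 0 1
    have d3 := hdiff 1 0
    have ex1 : Xm a 0 0 = px a := by simp [Xm]
    have ex2 : Xm a 0 1 = qx a := by simp [Xm]
    have ex3 : Xm a 1 0 = rx a := by simp [Xm]
    rw [ex1, abs_mul] at d1
    rw [ex2, abs_mul] at d2
    rw [ex3, abs_mul] at d3
    have hb : (|k - 1| * tn a) ^ 2 ≤ (128 * (tn y * tn a)) ^ 2 := by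
      have s1 : (|k - 1| * |px a|) ^ 2 ≤ (64 * (tn y * tn a)) ^ 2 :=
        pow_le_pow_left₀ (by positivity) d1 2
      have s2 : (|k - 1| * |qx a|) ^ 2 ≤ (64 * (tn y * tn a)) ^ 2 :=
        pow_le_pow_left₀ (by positivity) d2 2
      have s3 : (|k - 1| * |rx a|) ^ 2 ≤ (64 * (tn y * tn a)) ^ 2 :=
        pow_le_pow_left₀ (by positivity) d3 2
      rw [mul_pow, sq_abs (px a)] at s1
      rw [mul_pow, sq_abs (qx a)] at s2
      rw [mul_pow, sq_abs (rx a)] at s3
      rw [mul_pow, tn_sq]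
      nlinarith
    have hty0 := tn_nonneg y
    have hb' : |k - 1| * tn a ≤ 128 * (tn y * tn a) :=
      le_of_sq_le_sq hb (by positivity)
    have hb'' : |k - 1| ≤ 128 * tn y := by
      have : |k - 1| * tn a ≤ (128 * tn y) * tn a := by linarith
      exact le_of_mul_le_mul_right this hta0
    linarith
  rw [abs_lt] at hk1
  have kpos : 0 < k := by linarith [hk1.1]
  have hone : k = 1 → a * y = y * a := by
    intro h1
    apply hfin
    apply ext_coord htr
    · rw [kp, h1, one_mul]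
    · rw [kq, h1, one_mul]
    · rw [kr, h1, one_mul]
  rcases mul_eq_zero.1 hdet with h1 | h1
  · apply hone
    nlinarith
  by_cases hk1' : k = 1
  · exact hone hk1'
  exfalso
  have hA : ax a * ax a = 1 := by
    have := ax_sq a
    nlinarith
  have hXX : Xm a * Xm a = 0 := by
    rw [Xm_sq, h1, zero_smul]
  have hX0 : Xm a = 0 := by
    rcases lt_or_gt_of_ne hk1' with hlt | hgt
    · exact pow_lemma Γ hΓ g y a (ax a) k (Xm a) hy ha (a_eq a) hconjX kpos hlt hA hXX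
    · refine pow_lemma Γ hΓ g y⁻¹ a (ax a) k⁻¹ (Xm a) ?_ ha (a_eq a) ?_ (by positivity)
        (inv_lt_one_of_one_lt₀ hgt) hA hXX
      · have : g⁻¹ * y⁻¹ * g = (g⁻¹ * y * g)⁻¹ := by group
        rw [this]
        exact Γ.inv_mem hy
      · rw [inv_inv]
        have h2 : y⁻¹.1 * (y.1 * Xm a * y⁻¹.1) * y.1 = Xm a := by
          calc y⁻¹.1 * (y.1 * Xm a * y⁻¹.1) * y.1 = (y⁻¹.1 * y.1) * Xm a * (y⁻¹.1 * y.1) := by
                simp only [mul_assoc]
            _ = Xm a := by rw [hyy', one_mul, mul_one]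
        rw [hconjX, mul_smul_comm, smul_mul_assoc] at h2
        have h3 : k⁻¹ • (k • (y⁻¹.1 * Xm a * y.1)) = k⁻¹ • Xm a := by rw [h2]
        rw [smul_smul, inv_mul_cancel₀ kpos.ne', one_smul] at h3
        exact h3
  apply hN
  have p0 : px a = 0 := by
    have := congrFun (congrFun hX0 0) 0
    simpa [Xm] using this
  have q0 : qx a = 0 := by
    have := congrFun (congrFun hX0 0) 1
    simpa [Xm] using this
  have r0 : rx a = 0 := by
    have := congrFun (congrFun hX0 1) 0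
    simpa [Xm] using this
  rw [p0, q0, r0]
  norm_num

theorem st_ZAS : ST_ZAS := by
  refine ⟨1 / 2048, by norm_num, ?_⟩
  intro Γ hΓ g α β hα hβ hta htb
  set a := g * α * g⁻¹ with ha
  set b := g * β * g⁻¹ with hb
  have haΓ : g⁻¹ * a * g ∈ Γ := by
    have : g⁻¹ * a * g = α := by rw [ha]; group
    rwa [this]
  have hbΓ : g⁻¹ * b * g ∈ Γ := by
    have : g⁻¹ * b * g = β := by rw [hb]; group
    rwa [this]
  -- iterated commutators
  let s : ℕ → G := fun n => Nat.rec b (fun _ x => a * x * a⁻¹ * x⁻¹) n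
  have s0 : s 0 = b := rfl
  have sS : ∀ n, s (n + 1) = a * s n * a⁻¹ * (s n)⁻¹ := fun n => rfl
  have sΓ : ∀ n, g⁻¹ * s n * g ∈ Γ := by
    intro n
    induction n with
    | zero => rw [s0]; exact hbΓ
    | succ n ih =>
      have : g⁻¹ * s (n + 1) * g = (g⁻¹ * a * g) * (g⁻¹ * s n * g) * (g⁻¹ * a * g)⁻¹ *
          (g⁻¹ * s n * g)⁻¹ := by
        rw [sS]; group
      rw [this]
      exact Γ.mul_mem (Γ.mul_mem (Γ.mul_mem haΓ ih) (Γ.inv_mem haΓ)) (Γ.inv_mem ih)
  have ta0 := tn_nonneg a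
  have st : ∀ n, tn (s n) ≤ 1 / 2048 * (1 / 2) ^ n ∧ tn (s n) < 1 / 2048 := by
    intro n
    induction n with
    | zero => rw [s0]; constructor
              · simpa using htb.le
              · exact htb
    | succ n ih =>
      have h1 := tn_comm_le a (s n) (by linarith) (by linarith [ih.2])
      rw [← sS] at h1
      have h0 := tn_nonneg (s n)
      have h2 : 1024 * (tn a * tn (s n)) ≤ tn (s n) / 2 := by nlinarith
      constructor
      · rw [pow_succ]
        linarith [ih.1]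
      · linarith [ih.2]
  have hlim : Tendsto (fun n => s (n + 1)) atTop (𝓝 1) := by
    apply tendsto_one_of_entry _ (fun n => 512 * (1 / 2 : ℝ) ^ n)
    · have := (tendsto_pow_atTop_nhds_zero_of_lt_one (r := (1 / 2 : ℝ)) (by norm_num)
        (by norm_num)).const_mul 512
      simpa using this
    · intro n i j
      have h1 := comm_entry_le a (s n) (by linarith) (by linarith [(st n).2]) i j
      rw [← sS] at h1
      have h0 := tn_nonneg (s n)
      have h2 : tn a * tn (s n) ≤ 1 * (1 / 2) ^ n := by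
        apply mul_le_mul (by linarith) _ h0 (by norm_num)
        have := (st n).1
        have h3 : (0 : ℝ) < (1 / 2) ^ n := by positivity
        linarith
      linarith
  obtain ⟨N, hN⟩ := disc_lemma Γ hΓ g (fun n => s (n + 1)) (fun n => sΓ (n + 1)) hlim
  have hcomm : ∀ n, a * s n = s n * a → a * b = b * a := by
    intro n
    induction n with
    | zero => intro h; rwa [s0] at h
    | succ n ih =>
      intro h
      apply ih
      rw [sS] at h
      exact descend Γ hΓ g (s n) a (sΓ n) haΓ (st n).2 hta h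
  have hab : a * b = b * a := by
    apply hcomm (N + 1)
    have hN' : s (N + 1) = 1 := hN
    rw [hN', mul_one, one_mul]
  have h1 : g⁻¹ * (a * b) * g = g⁻¹ * (b * a) * g := by rw [hab]
  calc α * β = g⁻¹ * (a * b) * g := by rw [ha, hb]; group
    _ = g⁻¹ * (b * a) * g := h1
    _ = β * α := by rw [ha, hb]; group

end Pool.Agent.Helper91.Dil
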